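import Pool.Agent.Zk50.FI.Main

/-!
# The index of the crystalline Tate classes on the powers of a variety is the `ℓ`-adic index

Let `X` be a smooth proper variety over an algebraic closure of a finite field. We consider all
cohomology theories `T` (`FrobTheory`: the `ℓ`-adic cohomology for all primes `ℓ`, the crystalline
cohomology): Weil cohomologies with coefficients in a field of characteristic zero, with the same
Frobenius endomorphisms `Fr X` of models of the varieties over finite fields, which satisfy the
Riemann hypothesis (Deligne, Katz and Messing).

*Theorem.* There are `N` in `{1, 2, 3, ..., ∞}` and natural numbers `r n j`, which depend only on `X`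
and not on the cohomology theory, such that for every theory `T`

* `r n j` is the order of the pole at `j` of the zeta function of `X ^ (n + 1)` (over all
  sufficiently large finite fields), where the zeta function is defined with `T`;
* the quotient of the dimension of the space of all Tate classes of `T` on `X ^ (n + 1)` and the rank
  of the group of the algebraic cycles modulo numerical equivalence converges to `N` for `n → ∞`, and
  so does the quotient of the sum of the orders of the poles and this rank;
* `N = 1` if and only if the Tate conjecture for `T` is true for all powers of `X` and
  `T`-homological and numerical equivalence agree for them;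
* if `N` is finite then `T`-homological equivalence agrees with numerical equivalence for all powers
  of `X`, the Frobenius endomorphism acts semisimply on the cohomology `T` of all powers of `X`, the
  dimension of the space of the Tate classes of codimension `j` on `X ^ (n + 1)` is `r n j`, and the
  Tate conjecture for `T`, for `X ^ (n + 1)` and for the codimension `j` is true if and only if
  `r n j` is the rank of the group of cycles of codimension `j` modulo numerical equivalence.

So the index of the crystalline Tate classes is the same as the index of the `ℓ`-adic Tate classes,
for every variety and all `ℓ`; and if it is finite then the crystalline Tate conjecture for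
`X ^ (n + 1)` in codimension `j` is equivalent to the `ℓ`-adic one, for all `n`, `j` and `ℓ`.

The proof. Let `V` be the cohomology `T` of `X`. (a) If homological and numerical equivalence agree on
`X × X`, the nilpotent part of a power of the Frobenius endomorphism is a linear combination of
algebraic correspondences which commutes with all algebraic correspondences of degree zero; hence it
is numerically trivial by the trace formula, so it is zero: the Frobenius endomorphism is semisimple.
(b) The index of the Tate classes exists and if it is finite, homological and numerical equivalence
agree on all powers (starting library, `Sys.index`). Then all generalised Tate classes are Tate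
classes, and their number is given by the orders of the poles, which are independent of `T` by the
trace formula and the Riemann hypothesis. The generalised Tate classes have an index, too, which is
at least the index of the Tate classes; so both are infinite or both are finite and equal.
-/

open CategoryTheory AlgebraicGeometry Filter Topology

open scoped ENNReal

universe u v

namespace Pool.Agent.Results.MP_60ec62_ag.IndexIndependence

open Pool.Agent.H914 Pool.Agent.H914.VarClass Pool.Agent.H914.VarClass.Obj
  Pool.Agent.H914.WeilCohomology Pool.Agent.W534 Pool.Agent.Y133.Half Pool.Agent.Zk50.FI

/-- **The index of the Tate classes over finite fields is independent of the cohomology theory.** -/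
theorem result {k : Type u} [Field k] {𝒱 : VarClass k} {ops : CycleOps 𝒱} {p : ℕ} (hp : 1 < p)
    {Fr : ∀ X : 𝒱.Obj, X ⟶ X} {e : 𝒱.Obj → ℕ} (h0 : Nonempty (FrobTheory.{u, v} ops p Fr e))
    (X : 𝒱.Obj) :
    ∃ (N : ℕ∞) (r : ℕ → ℕ → ℕ), 1 ≤ N ∧
      Tendsto (fun n => ((∑ j ∈ Finset.range ((pw X n).dim + 1), r n j : ℕ) : ℝ≥0∞) /
        cycRank ops (pw X n)) atTop (𝓝 (N : ℝ≥0∞)) ∧
      ∀ T : FrobTheory.{u, v} ops p Fr e,
        (∀ n, ∀ j ≤ (pw X n).dim, T.IsPoleOrder (pw X n) j (r n j)) ∧
        Tendsto (fun n => (T.tateDim (pw X n) : ℝ≥0∞) / cycRank ops (pw X n)) atTop
          (𝓝 (N : ℝ≥0∞)) ∧
        (N = 1 ↔ T.TatePowers X ∧ ∀ n, HomEqNum T.W (pw X n)) ∧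
        (N ≠ ⊤ → ∀ n, HomEqNum T.W (pw X n) ∧ FrobSemisimple T.Φ (pw X n) ∧
          ∀ j ≤ (pw X n).dim, T.tateRank (pw X n) j = r n j ∧
            (TateIn T.Φ (pw X n) j ↔ r n j = numRank ops (pw X n) j)) :=
  field_index hp h0 X

end Pool.Agent.Results.MP_60ec62_ag.IndexIndependence
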