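import Pool.Agent.Y138.KC.Final
import Pool.Agent.Zk39.K3.Crys

/-!
# The crystalline Tate conjecture for powers of K3 surfaces

Let `X` be a K3 surface of finite height `h` and Picard number `ρ` over an algebraic closure of the field
with `p` elements, `q α` the Frobenius eigenvalue on the transcendental part of its second cohomology, over
a large finite field with `q` elements; `α` generates a CM field `E` of degree `2 d`, `d ≤ 10`, and `m` is the
local degree of `E` at the place where `|α| > 1` (`m = h` if the eigenvalues are different). We show that the
crystalline Tate conjecture holds, in all codimensions and over all finite fields of definition, for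

* all powers `X ^ n`, if `m` is odd and `(d, m)` is not `(6, 3), (9, 3), (10, 3), (10, 5)`;
* `X ^ 2` and `X ^ 3`, if `(d, m)` is not one of the nine exceptional pairs;
* the products `Z × U` of such a power `Z` and any smooth projective variety `U` whose slopes are
  determined by a field which is independent of `E`, in codimension `c`, if the Tate conjecture holds for
  `U` in codimension `c - i` for all `i ≤ c` with a nontrivial cycle of codimension `i` on `Z`.

The problem asks for the `K₀`-linear form over a finite field: `K₀` is the fraction field of the Witt
vectors of the field with `Q` elements, and the classes in the crystalline cohomology of the model over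
this field on which Frobenius acts as `Q ^ c` are `K₀`-linear combinations of classes of cycles over
this field. The starting files `K3OddHeight`, `K3Cubes` of `MP_950c68_ag` are about Weil cohomology theories with
algebraically closed coefficients and potential Tate classes; here the coefficients and the cycles descend
to `K₀` and to the finite field.
-/

set_option autoImplicit false

open CategoryTheory AlgebraicGeometry NumberField

universe u v

namespace Pool.Agent.Results.MP_60ec62_ag.K3Powers

open Pool.Agent.H914 Pool.Agent.W534 Pool.Agent.TH132.A Pool.Agent.TH121.KT Pool.Agent.W517.K3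
  Pool.Agent.Y138.KC VarClass Obj WeilCohomology Pool.Agent.Zk39.K3

/-- **The crystalline Tate conjecture for powers of K3 surfaces and for their products with
independent varieties.** -/
theorem result {k : Type u} [Field k] {𝒱 : VarClass k} {ops : CycleOps 𝒱}
    (W : WeilCohomology.{u, v} ops) [IsAlgClosed W.K] (p : ℕ) [Fact p.Prime]
    (Φ : FrobSystem W p) (ι : AlgebraicClosure ℚ →+* PadicAlgCl p) (X : 𝒱.Obj)
    (E : Type) [Field E] [NumberField E] [IsCMField E] (a e : ℕ) (α : E)
    (hα : IsK3Frobenius p a α) (hX : HasWeilNumber Φ X e α) (d : ℕ)
    (hd : Module.finrank ℚ E = 2 * d) (hd10 : d ≤ 10) (n : ℕ)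
    (hex : (n ≤ 3 ∧ (d, localDegree p α) ∉ exceptionalPairs) ∨
      (Odd (localDegree p α) ∧ (d, localDegree p α) ∉ exceptionalOddPairs))
    (Z : 𝒱.Obj) (hZ : IsPower W X n Z) :
    (∀ c, CrystallineTate Φ Z c) ∧
    ∀ L : IntermediateField ℚ (AlgebraicClosure ℚ), IsIndependentField E L →
      ∀ U : 𝒱.Obj, FrobeniusSlopes Φ ι L U → ∀ c,
        (∀ i ≤ c, (∃ x, Z.IsCyc i x ∧ ¬ HomEq W x 0) → TateIn Φ U (c - i)) →
          CrystallineTate Φ (Z.prod U) c := by
  obtain ⟨h1, h2⟩ := main_good (ι := ι) hα hd rfl ⟨hd10, hex⟩ hX hZ
  exact ⟨fun c => crystalline_of_tate Φ Z c (tate_of_semisimple Φ Z c (h1 c)),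
    fun L hL U hU c h => crystalline_of_tate Φ _ c ((h2 L hL U hU c).1.2 h)⟩

end Pool.Agent.Results.MP_60ec62_ag.K3Powers
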