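import Pool.Agent.Zk51.CM.Main

/-!
# The crystalline Tate conjecture on `S × X ^ n`: the number of missing cycles

Let `S` be any smooth proper variety over a finite field and let the rational motive of `X` be such
that the sum of the powers of `X` satisfies `IsPow` (for example `X` is an abelian variety or a curve).
The category `C` has the smooth proper varieties as objects and correspondences as morphisms. For a
variety `Z` we consider

* `gen`: the sum of the generalised eigenspaces of the Frobenius endomorphism for `q ^ j` on the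
  crystalline cohomology of degree `2 j` of `S × Z`, and in it `tate j`, the eigenspaces, that is the
  Tate classes;
* `alg`: the span of the classes of cycles in it, and `num`: the group of cycles on `S × Z` modulo
  numerical equivalence with coefficients in `Λ`, which is a quotient of `alg`.

The number `missing` of the missing cycles is the difference of the dimensions of `gen` and `num`, that
is the sum of the orders of the poles of the zeta function of `S × Z` at all integers minus the rank of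
the group of cycles modulo numerical equivalence.
-/

set_option autoImplicit false

open CategoryTheory Limits MonoidalCategory Module Filter Topology
open Pool.Agent.Y112.SR Pool.Agent.Y112.KD Pool.Agent.N64.AF Pool.Agent.Zk51.RG
open Pool.Agent.Zk51.CM
open scoped ENNReal

namespace Pool.Agent.Results.MP_60ec62_ag.MissingCycles

universe v u w t x

section Data

variable (Λ : Type t) [Field Λ] (C : Type u) [Category.{v} C] [Preadditive C] [Linear Λ C]

/-- The groups of cycles and of cohomology classes of the varieties `S × Z`, `Z` in `C`. -/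
structure TateData where
  /-- the span of the classes of cycles -/
  alg : AddFun.{v, u, t, x} Λ C
  /-- the generalised Tate classes -/
  gen : AddFun.{v, u, t, x} Λ C
  /-- the cycles modulo numerical equivalence -/
  num : AddFun.{v, u, t, x} Λ C
  /-- the classes of cycles of codimension `j` -/
  algJ : ∀ Z : C, ℤ → alg.Sub Z
  /-- the generalised Tate classes of codimension `j` -/
  genJ : ∀ Z : C, ℤ → gen.Sub Z
  /-- the cycles of codimension `j` modulo numerical equivalence -/
  numJ : ∀ Z : C, ℤ → num.Sub Z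
  /-- the Tate classes of codimension `j` -/
  tate : ∀ Z : C, ℤ → gen.Sub Z
  /-- the inclusion of the classes of cycles -/
  cl : ∀ Z : C, alg.Grp Z →ₗ[Λ] gen.Grp Z
  /-- the projection to the cycles modulo numerical equivalence -/
  pr : ∀ Z : C, alg.Grp Z →ₗ[Λ] num.Grp Z

variable {Λ C}

namespace TateData

variable (D : TateData.{v, u, t, x} Λ C)

/-- The known properties: correspondences act in a compatible way, classes of cycles are Tate
classes, the groups are the direct sums of the parts of codimension `j`, and the generalised Tate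
classes are a space of finite dimension. -/
structure IsTateData : Prop where
  alg_sum : ∀ Z : C, IsDirectSum (D.algJ Z)
  gen_sum : ∀ Z : C, IsDirectSum (D.genJ Z)
  num_sum : ∀ Z : C, IsDirectSum (D.numJ Z)
  cl_mem : ∀ (Z : C) (j : ℤ), (D.algJ Z j).map (D.cl Z) ≤ D.tate Z j
  tate_le : ∀ (Z : C) (j : ℤ), D.tate Z j ≤ D.genJ Z j
  pr_onto : ∀ (Z : C) (j : ℤ), (D.algJ Z j).map (D.pr Z) = D.numJ Z j
  cl_inj : ∀ Z : C, Function.Injective (D.cl Z)
  cl_nat : ∀ (Y Z : C) (f : Y ⟶ Z), D.cl Z ∘ₗ D.alg.act f = D.gen.act f ∘ₗ D.cl Y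
  pr_nat : ∀ (Y Z : C) (f : Y ⟶ Z), D.pr Z ∘ₗ D.alg.act f = D.num.act f ∘ₗ D.pr Y
  finite : ∀ Z : C, Module.Finite Λ (D.gen.Grp Z)

/-- The Tate conjecture for `S × Z`: in each codimension the Tate classes are linear combinations of
classes of cycles. -/
def Tate (Z : C) : Prop := ∀ j, (D.algJ Z j).map (D.cl Z) = D.tate Z j

/-- The Frobenius endomorphism acts semisimply on the generalised Tate classes of `S × Z`. -/
def Semisimple (Z : C) : Prop := ∀ j, D.tate Z j = D.genJ Z j

/-- Homological and numerical equivalence agree on `S × Z`. -/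
def HomNum (Z : C) : Prop := ∀ j, ∀ x ∈ D.algJ Z j, D.pr Z x = 0 → x = 0

/-- The Tate conjecture, the semisimplicity and the equality of homological and numerical
equivalence. -/
def All (Z : C) : Prop := D.Tate Z ∧ D.Semisimple Z ∧ D.HomNum Z

/-- The dimension of the space of the generalised Tate classes of `S × Z` (the sum of the orders of
the poles of the zeta function at the integers) minus the rank of the group of cycles modulo numerical
equivalence. -/
noncomputable def missing (Z : C) : ℕ := finrank Λ (D.gen.Grp Z) - finrank Λ (D.num.Grp Z)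

/-- The cycle class maps to the generalised Tate classes. -/
def toGen : CycleMaps.{v, u, t, x} Λ C := ⟨D.alg, D.gen, D.algJ, D.genJ, D.cl⟩

/-- The maps to the cycles modulo numerical equivalence. -/
def toNum : CycleMaps.{v, u, t, x} Λ C := ⟨D.alg, D.num, D.algJ, D.numJ, D.pr⟩

namespace IsTateData

variable {D} (h : D.IsTateData)
include h

lemma isGen : D.toGen.IsCycleMaps where
  graded Z := ⟨h.alg_sum Z, h.gen_sum Z, fun j => (h.cl_mem Z j).trans (h.tate_le Z j)⟩
  nat := h.cl_nat

lemma isNum : D.toNum.IsCycleMaps where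
  graded Z := ⟨h.alg_sum Z, h.num_sum Z, fun j => (h.pr_onto Z j).le⟩
  nat := h.pr_nat

lemma all_iff (Z : C) : D.All Z ↔ D.toGen.Onto Z ∧ D.toNum.Inj Z := by
  constructor
  · rintro ⟨h1, h2, h3⟩
    exact ⟨fun j => (h1 j).trans (h2 j), h3⟩
  · rintro ⟨h1, h2⟩
    have h3 : ∀ j, D.tate Z j ≤ (D.algJ Z j).map (D.cl Z) := fun j => by
      have := h1 j
      change (D.algJ Z j).map (D.cl Z) = D.genJ Z j at this
      rw [this]
      exact h.tate_le Z j
    refine ⟨fun j => le_antisymm (h.cl_mem Z j) (h3 j), fun j => ?_, h2⟩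
    refine le_antisymm (h.tate_le Z j) ?_
    have := h1 j
    change (D.algJ Z j).map (D.cl Z) = D.genJ Z j at this
    rw [← this]
    exact h.cl_mem Z j

lemma pr_surj (Z : C) : Function.Surjective (D.pr Z) := by
  rw [← LinearMap.range_eq_top, eq_top_iff, ← (h.num_sum Z).2]
  refine iSup_le fun j => ?_
  rw [← h.pr_onto Z j]
  exact LinearMap.map_le_range

lemma missing_eq (Z : C) : ((D.missing Z : ℕ) : ℕ∞) = D.toGen.cokD Z + D.toNum.kerD Z := by
  have f1 : Module.Finite Λ (D.gen.Grp Z) := h.finite Z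
  have f2 : Module.Finite Λ (D.alg.Grp Z) := Module.Finite.of_injective (D.cl Z) (h.cl_inj Z)
  have f3 : Module.Finite Λ (D.num.Grp Z) := Module.Finite.of_surjective (D.pr Z) (h.pr_surj Z)
  have f4 : Module.Finite Λ (D.gen.Grp Z ⧸ LinearMap.range (D.cl Z)) :=
    Module.Finite.of_surjective (Submodule.mkQ (LinearMap.range (D.cl Z)))
      (Submodule.mkQ_surjective _)
  have f5 : Module.Finite Λ (LinearMap.ker (D.pr Z)) :=
    Module.Finite.of_injective (LinearMap.ker (D.pr Z)).subtype
      (Submodule.subtype_injective _)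
  have h1 : finrank Λ (D.gen.Grp Z ⧸ LinearMap.range (D.cl Z)) +
      finrank Λ (LinearMap.range (D.cl Z)) = finrank Λ (D.gen.Grp Z) :=
    Submodule.finrank_quotient_add_finrank _
  have h2 : finrank Λ (LinearMap.range (D.cl Z)) = finrank Λ (D.alg.Grp Z) :=
    LinearMap.finrank_range_of_inj (h.cl_inj Z)
  have h3 : finrank Λ (LinearMap.range (D.pr Z)) + finrank Λ (LinearMap.ker (D.pr Z)) =
      finrank Λ (D.alg.Grp Z) := LinearMap.finrank_range_add_finrank_ker _
  have h4 : finrank Λ (LinearMap.range (D.pr Z)) = finrank Λ (D.num.Grp Z) := by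
    rw [LinearMap.range_eq_top.2 (h.pr_surj Z), finrank_top]
  have h5 : D.toGen.cokD Z = (finrank Λ (D.gen.Grp Z ⧸ LinearMap.range (D.cl Z)) : ℕ∞) :=
    @dimE_eq Λ _ (D.gen.Grp Z ⧸ LinearMap.range (D.cl Z)) _ _ f4
  have h6 : D.toNum.kerD Z = (finrank Λ (LinearMap.ker (D.pr Z)) : ℕ∞) :=
    @dimE_eq Λ _ (LinearMap.ker (D.pr Z)) _ _ f5
  rw [h5, h6, ← Nat.cast_add, Nat.cast_inj, missing]
  omega

end IsTateData

end TateData

end Data

variable {C : Type u} [Category.{v} C] [Preadditive C] [MonoidalCategory C]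
  [MonoidalPreadditive C] [SymmetricCategory C] [RightRigidCategory C]
  {Λ : Type t} [Field Λ] [CharZero Λ] [Linear Λ C] [MonoidalLinear Λ C]
  {K : Type w} [Field K] [IsAlgClosed K] [Algebra Λ K]

lemma isMotivic_add {R : SuperRealisation C K} {T : C} {k₁ k₂ : ℕ} {a₁ a₂ : ℕ → ℕ∞}
    (h₁ : IsMotivic Λ R T k₁ a₁) (h₂ : IsMotivic Λ R T k₂ a₂) :
    IsMotivic Λ R T (k₁ + k₂) (fun n => a₁ n + a₂ n) := by
  obtain ⟨ι₁, _, m₁, r₁, e₁, h1, h2, h3⟩ := h₁
  obtain ⟨ι₂, _, m₂, r₂, e₂, h4, h5, h6⟩ := h₂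
  let e : ∀ i : ι₁ ⊕ ι₂, tp T (Sum.elim m₁ m₂ i) ⟶ tp T (Sum.elim m₁ m₂ i) :=
    fun i => Sum.rec (motive := fun i => tp T (Sum.elim m₁ m₂ i) ⟶ tp T (Sum.elim m₁ m₂ i)) e₁ e₂ i
  refine ⟨ι₁ ⊕ ι₂, inferInstance, Sum.elim m₁ m₂, Sum.elim r₁ r₂, e, ?_, ?_, fun n => ?_⟩
  · rintro (i | i)
    · exact h1 i
    · exact h4 i
  · rw [Fintype.sum_sum_type]
    simp only [Sum.elim_inl, Sum.elim_inr]
    rw [h2, h5]
  · have h7 : ∑ i, nr Λ (e i) (𝟙 (tp T n)) =
        ∑ i, nr Λ (e₁ i) (𝟙 (tp T n)) + ∑ i, nr Λ (e₂ i) (𝟙 (tp T n)) :=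
      Fintype.sum_sum_type (fun i => nr Λ (e i) (𝟙 (tp T n)))
    have h8 : a₁ n + a₂ n = ((∑ i, nr Λ (e i) (𝟙 (tp T n)) : ℕ) : ℕ∞) := by
      rw [h7, h3, h6, Nat.cast_add]
    exact h8

variable (R : SuperRealisation C K) (T : C)

/-- **The law for the number of the missing cycles on `S × X ^ n`.** -/
theorem result [ExactPairing T T] (h : IsPow Λ R T) (D : TateData.{v, u, t, x} Λ C)
    (hD : D.IsTateData) :
    (∃ N : ℕ∞, RatioTo Λ T (fun n => (D.missing (tp T n) : ℕ∞)) N ∧
      (N = 0 ↔ ∀ n, D.All (tp T n)) ∧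
      (∀ k : ℕ, N = k → IsMotivic Λ R T k (fun n => (D.missing (tp T n) : ℕ∞)) ∧
        ∃ k₁ k₂ : ℕ, k₁ + k₂ = k ∧
          (∀ (a b : ℕ) (f : tp T a ⟶ tp T b), NumPow T k₁ f →
            LinearMap.range (D.gen.act f) ≤ LinearMap.range (D.cl (tp T b))) ∧
          ∀ (a b : ℕ) (f : tp T a ⟶ tp T b), NumPow T k₂ f →
            ∀ x, D.pr (tp T a) x = 0 → D.alg.act f x = 0) ∧
      ((∀ n, SumOf D.All (tp T n)) → N = 0 ∨ N = ⊤)) ∧
    (∀ m n : ℕ, 128 * (m + 1) ^ 2 * bt R T ^ (2 * m + 6) ≤ n →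
      2 * D.missing (tp T n) < numRank Λ (tp T n) → D.All (tp T m)) ∧
    ∀ m n : ℕ, 128 * (m + 1) ^ 2 * bt R T ^ (4 * m + 12) ≤ n → ¬ D.All (tp (T ⊗ Tᘁ) m) →
      bt R T ^ (2 * n) ≤ 2 * (n + 1) ^ (bt R T ^ 2) * D.missing (tp (T ⊗ Tᘁ) n) := by
  have e : (fun n => (D.missing (tp T n) : ℕ∞)) =
      fun n => D.toGen.cokD (tp T n) + D.toNum.kerD (tp T n) := by
    funext n
    exact hD.missing_eq _
  refine ⟨?_, ?_, ?_⟩
  · obtain ⟨N₁, a1, a2, a3, a4⟩ := hD.isGen.cokLaw h
    obtain ⟨N₂, b1, b2, b3, b4⟩ := hD.isNum.kerLaw h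
    refine ⟨N₁ + N₂, ?_, ?_, ?_, ?_⟩
    · rw [e]
      exact ratio_add a1 b1
    · rw [add_eq_zero, a2, b2, ← forall_and]
      exact forall_congr' fun n => (hD.all_iff _).symm
    · intro k hk
      have hN1 : N₁ ≠ ⊤ := by
        rintro rfl
        simp at hk
      have hN2 : N₂ ≠ ⊤ := by
        rintro rfl
        simp at hk
      obtain ⟨k₁, rfl⟩ := ENat.ne_top_iff_exists.1 hN1
      obtain ⟨k₂, rfl⟩ := ENat.ne_top_iff_exists.1 hN2
      have hk' : k₁ + k₂ = k := by exact_mod_cast hk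
      obtain ⟨c1, c2, -⟩ := a3 k₁ rfl
      obtain ⟨d1, d2⟩ := b3 k₂ rfl
      refine ⟨?_, k₁, k₂, hk', c2, d2⟩
      rw [e, ← hk']
      exact isMotivic_add c1 d1
    · intro hs
      have hs1 : ∀ n, SumOf D.toGen.Onto (tp T n) := by
        intro n
        obtain ⟨s, Z, α, β, h1, h2⟩ := hs n
        exact ⟨s, Z, α, β, fun j => ((hD.all_iff _).1 (h1 j)).1, h2⟩
      have hs2 : ∀ n, SumOf D.toNum.Inj (tp T n) := by
        intro n
        obtain ⟨s, Z, α, β, h1, h2⟩ := hs n
        exact ⟨s, Z, α, β, fun j => ((hD.all_iff _).1 (h1 j)).2, h2⟩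
      rcases a4 hs1 with h1 | h1 <;> rcases b4 hs2 with h2 | h2 <;> simp [h1, h2]
  · intro m n hn hlt
    have hc := hD.isGen.criterion h m n hn
    have hk := hD.isNum.criterion h m n hn
    have h1 := hD.missing_eq (tp T n)
    have h2 : (2 * ((D.missing (tp T n) : ℕ) : ℕ∞)) < numRank Λ (tp T n) := by exact_mod_cast hlt
    rw [h1, mul_add] at h2
    rw [hD.all_iff]
    exact ⟨hc.1 (lt_of_le_of_lt le_self_add h2), hk.2 (lt_of_le_of_lt le_add_self h2)⟩
  · intro m n hn hall
    have hc := hD.isGen.gap h.real h.cplus (bt_pos h) m n hn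
    have hk := hD.isNum.gap h.real h.cplus (bt_pos h) m n hn
    have h1 := hD.missing_eq (tp (T ⊗ Tᘁ) n)
    rw [hD.all_iff, not_and_or] at hall
    have h3 : ((bt R T ^ (2 * n) : ℕ) : ℕ∞) ≤
        (2 * (n + 1) ^ (bt R T ^ 2) : ℕ) * ((D.missing (tp (T ⊗ Tᘁ) n) : ℕ) : ℕ∞) := by
      rw [h1]
      rcases hall with h4 | h4
      · exact (hc.1 h4).trans (mul_le_mul' le_rfl le_self_add)
      · exact (hk.2 h4).trans (mul_le_mul' le_rfl le_add_self)
    exact_mod_cast h3

end Pool.Agent.Results.MP_60ec62_ag.MissingCycles
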