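import Mathlib
import Pool.Agent.R299.CRY2.Main
import Pool.Agent.TH170.GS.TB2
import Pool.Agent.Zk39.NP.Class

/-!
# The crystalline Tate conjecture for abelian varieties with rigid slope types

Over an algebraic closure of the field with `p` elements each abelian variety is isogenous to the
reduction of an abelian variety of CM type (Honda, Tate). So an abelian variety over the field with
`p ^ a` elements is modelled by `RedAV`: a finite product of CM types `(E i, Φ i)` with Weil numbers
`π i ∈ E i` that satisfy the formula of Shimura and Taniyama; its cohomology of degree `n`, with
coefficients in an algebraically closed field `Ω`, consists of the alternating `n`-forms on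
`Ω ⊗ H_1`, on which the Frobenius endomorphism acts by `π`. We fix an isomorphism `ν` of the algebraic
closure of `ℚ_p` with `ℂ`; it defines a `p`-adic valuation of `ℂ`, with the value one at `p`.

**Rigid slope types.** Let `E` be a CM field of degree `2 g`, `M` a function with integral values
(zero is allowed) on the complex embeddings of `E`, invariant under complex conjugation, and `Φ` a CM
type of `E`. Together with a real number `κ ≠ 0` they prescribe the slopes `(a + κ M) / 2` (at the
embeddings in `Φ`) and `(a - κ M) / 2` (outside of `Φ`) of a Weil number in `E`; `M` gives the Newton
polygon. The slope type is *rigid* (`Rigid`), for all CM types `Φ` and all fields `E` of degree `2 g`, if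
the weights `M` satisfy one of the following conditions (`NewtonRigid`): one weight is larger than the
sum of the others (absolute values, one out of each conjugate pair); `g = r ^ k` is a power of a prime
number `r`, the sum of the weights (one out of each pair) is odd, and `r = 2` or the sum of the
absolute values is smaller than `r`; or `g` is even and the weights are even at exactly one conjugate
pair. For instance, let `Y` be a simple abelian variety of dimension `g`, whose Frobenius generates a CM
field of degree `2 g`, with `p`-rank `f` and all other slopes equal to `1 / 2` (weights `0` and `1`). It is
rigid if `f = 1` or if `g` is even and `f = g - 1` (for these the Tate conjecture is a theorem of Lenstra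
and Zarhin), if `g = 2 ^ k` and `f` is odd, and if `g = r ^ k` and `f` is odd and smaller than the prime `r`.

Let `u` be the function `M` on `Φ`, `- M` outside of `Φ`. The slope type is also called rigid (`RigidW`) if
some function `w` with integral values, a linear combination with rational coefficients of the
conjugates `φ ↦ u (σ φ)` of `u` (for instance `w = u`), satisfies one of the following conditions:

* (`HasDominant`) one value `|w ψ|` is larger than the sum of the values `|w φ|` over one half of the
  embeddings different from `ψ` and its conjugate;
* (`HasOrbitSum`) some group of automorphisms of `ℂ` has an orbit `O` of `r ^ k` embeddings, `r` a prime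
  number, `k ≥ 0`, without conjugate pairs, the sum of `w` over `O` is prime to `r`, and `w` is divisible
  by `r` outside of `O` and the conjugate of `O`;
* (`HasSignedSums`) some group of automorphisms of `ℂ` has an orbit of `r ^ k` conjugate pairs of
  embeddings, `r` a prime number, no sum of `w` over one element of each pair of the orbit is divisible
  by `r`, and `w` is divisible by `r` outside of the orbit;
* (`HasOneEven`) some group of automorphisms of `ℂ` has an orbit of an even number of conjugate pairs of
  embeddings, and `w` is even outside of the orbit and at exactly one pair of the orbit;

or (`HasOddWeights`) if `[E : ℚ] = 2 ^ (k + 1)`, the discriminant of `E` is not a square and all weights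
`M` are odd. Nothing is assumed about the dimension and the Galois group in the first four conditions:
they are local in the sense that the values of `w` outside of an orbit of prime power length matter
only modulo a prime number. For instance, an ordinary slope type (`M = 1`) is rigid if some
automorphism `σ` moves exactly one element of `Φ` out of `Φ`: put `w = (u - u ∘ σ) / 2`.

Let `𝒞` (`IsRigid`) be the class of the abelian varieties `Y` for which there are finitely many pairwise
independent CM fields `K i` (for `i ≠ k` and all complex embeddings `φ` of `K i` and `ψ` of `K k` some
automorphism of `ℂ` is the identity on `φ (K i)` and the complex conjugation on `ψ (K k)`) with rigid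
slope types such that each factor of `Y` is supersingular or has a Frobenius endomorphism some power of
which is a Weil number in some `K i` with these slopes (with a real number `κ i ≠ 0` that depends only on
`Y` and `i`). So `Y` is, over an algebraic closure, isogenous to a product of powers of one abelian
variety for each `i` and of a supersingular one.

**Theorem.** Both forms of the crystalline Tate conjecture are true for all `Y` in `𝒞`, in all degrees,
over all finite extensions of the ground field. This means the following. Let `K₀` be the fraction
field of the ring of Witt vectors of the field with `Q = (p ^ a) ^ s` elements, with its Frobenius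
automorphism `σ`; let `V₀` be the dual space of the first crystalline cohomology group of `Y` with
coefficients in `K₀`, with the semilinear endomorphism `Ψ` dual to the crystalline Frobenius
endomorphism, and the linear Frobenius endomorphism `F₀ = Ψ ^ (a * s)`. The crystalline cohomology
group `H^{2m}(Y)` is the space of alternating forms `f` of degree `2 m` on `V₀`; the crystalline
Frobenius endomorphism maps `f` to `v ↦ σ (f (Ψ v))`. Over an algebraically closed field `Ω` that
contains `K₀` the space `V₀` is identified with `Ω ⊗ H_1`, where `F₀` is the multiplication by `π ^ s`
(`IsCrystalline`; the theorem holds for all fields `K₀` with an automorphism `σ` whose power `a * s` is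
trivial). Let `Cyc ⊆ H^{2m}(Y)` be the set of the classes of algebraic cycles of codimension `m` over
the field with `Q` elements. Then

* each class `f` in `H^{2m}(Y)` with `Fr f = Q ^ m f` is a linear combination of elements of `Cyc` with
  coefficients in `K₀`, and
* each class `f` that is multiplied by `p ^ m` by the crystalline Frobenius endomorphism is a linear
  combination of elements of `Cyc` with coefficients in the fixed field of `σ`, the field of `p`-adic
  numbers.

The theorem uses of `Cyc` only that the crystalline Frobenius endomorphism multiplies its elements by
`p ^ m`, and (`ContainsAlg`) that its linear span over `K₀` contains each class `g` with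
`Fr g = Q ^ m g` that belongs, over `Ω`, to the smallest system `Alg` of cohomology classes of abelian
varieties over finite fields that contains the Tate classes of degree two (which are algebraic by the
theorem of Tate) and the reductions of the Weil classes of imaginary quadratic fields on abelian
fourfolds and sixfolds of split Weil type (Markman; they are not needed for the varieties in `𝒞`), and
that is stable under linear combinations, cup products, pull-backs along homomorphisms and
push-forwards along projections.

The proof. If there are relations between the Frobenius eigenvalues that are not generated by those
of the complex conjugate pairs, then there is a nonzero odd integral function `c` on the embeddings of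
one of the fields all of whose conjugates are orthogonal to `u`, hence to `w`. We may assume that `c` is
not divisible by `r` at the given orbit. Modulo `r`, only the values at the orbit matter; the odd
functions modulo `r` on the orbit that are orthogonal to the conjugates of `w` under the Sylow subgroup
are stable under it and not all zero, so one of them is fixed by it and therefore constant, up to
signs, on the orbit; this contradicts the condition on the sums. The starting files
(`MP_0d42ed_ag.PrimePowerCentre`, `MP_0d42ed_ag.DominantSlope`, `MP_021685_ag.TowersOfCMFields`,
`MP_ee618e_ag.IndependentDiscriminants`) contain the global forms, for `w = u` and fields of degree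
`2 r ^ k`, of these conditions, for the Tate conjecture.
-/

set_option autoImplicit false

namespace Pool.Agent.Results.MP_60ec62_ag.RigidSlopes

open Pool.Agent.TH170 Pool.Agent.W495.TA Pool.Agent.W547.KB Pool.Agent.TH117.F5 Pool.Agent.R299.CRY
  Pool.Agent.Zk39.NP
open scoped TensorProduct

/-- **Both forms of the crystalline Tate conjecture are true for all abelian varieties with rigid slope
types**, for instance for those with one dominant slope, those whose Frobenius generates a field of
degree `2 ^ (k + 1)` with an odd sum of the weights, and those of even dimension with exactly one even
weight. -/
theorem result :
    ∀ (p : ℕ) [Fact p.Prime] (ν : PadicAlgCl p ≃+* ℂ) (Y : RedAV p ν), IsRigid Y →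
      ∀ s : ℕ, 0 < s →
      ∀ (K₀ Ω V₀ : Type) [Field K₀] [CharZero K₀] [Field Ω] [IsAlgClosed Ω] [CharZero Ω]
        [Algebra K₀ Ω] [AddCommGroup V₀] [Module K₀ V₀] [FiniteDimensional K₀ V₀]
        (F₀ : V₀ →ₗ[K₀] V₀) (e : (Ω ⊗[K₀] V₀) ≃ₗ[Ω] TM Ω Y) (σ : K₀ ≃+* K₀) (Ψ : V₀ → V₀),
        IsCrystalline Y s F₀ e → IsSemilinearFrobenius (Y.a * s) σ Ψ F₀ →
          ∀ (m : ℕ) (Cyc : Set (V₀ [⋀^Fin (2 * m)]→ₗ[K₀] K₀)), (∀ c ∈ Cyc, IsFrobFixed p σ Ψ c) →
            ContainsAlg s F₀ e (Submodule.span K₀ Cyc) →
              ∀ f : V₀ [⋀^Fin (2 * m)]→ₗ[K₀] K₀,
                (IsTateCrys F₀ ((p ^ Y.a) ^ s) m f → f ∈ Submodule.span K₀ Cyc) ∧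
                  (IsFrobFixed p σ Ψ f → FixedSpan σ Cyc f) := by
  intro p _ ν Y hY s hs K₀ Ω V₀ _ _ _ _ _ _ _ _ _ F₀ e σ Ψ he hΨ m Cyc hC hA f
  obtain ⟨Z, h1, h2⟩ := elementary_of_rigid hY
  exact Pool.Agent.R299.CRY2.main_elem h1 h2 s hs F₀ e he σ Ψ hΨ Cyc hC hA f

end Pool.Agent.Results.MP_60ec62_ag.RigidSlopes
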